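import Pool.Agent.TH678.PC.Final
import Pool.Agent.W895.MA.Defs

/-!
# Few changes of every oracle such that `coNP` is not in `AM`
-/

set_option autoImplicit false

namespace Pool.Agent.TH678.PC

open Pool.Agent.NPC Finset H568R2 Pool.Agent.H676 Pool.Agent.H620R2.Gauge Pool.Agent.H622R2
  Pool.Agent.H622R2.Exp Pool.Agent.TH678.PN Pool.Agent.TH678.SW MeasureTheory Filter
open Pool.Agent.W900.CH (Close dist)
open Pool.Agent.W895.MA (IsAM amPr)
open Pool.Agent.H628R3.RO (randomOracle)

/-- the algorithm accepts for some message of Merlin -/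
def AccW (M : Alg) (A : Oracle) (m : ℕ) (x : List Bool) (w : Fin m → Bool) : Prop :=
  ∃ y : List Bool, y.length ≤ m ∧
    M.out A (pairBits (List.ofFn w) (pairBits y x)) = some [true]

open Classical in
/-- the number of the random strings for which the algorithm accepts -/
noncomputable def numW (M : Alg) (A : Oracle) (m : ℕ) (x : List Bool) : ℕ :=
  (univ.filter (fun w : Fin m → Bool => AccW M A m x w)).card

theorem amPr_eq {V : List Bool → List Bool} {M : Alg} {A : Oracle} (h : ∀ x, M.out A x = some (V x))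
    (m : ℕ) (x : List Bool) : amPr V m x = (numW M A m x : ℝ) / 2 ^ m := by
  classical
  unfold amPr numW AccW
  simp only [h, Option.some.injEq]
  rw [Nat.card_eq_fintype_card, Fintype.card_subtype]

/-- the length of the input of the algorithm -/
theorem len_am (m : ℕ) (x y : List Bool) (w : Fin m → Bool) (hy : y.length ≤ m) :
    (pairBits (List.ofFn w) (pairBits y x)).length ≤ 4 * m + 2 + x.length := by
  rw [length_pairBits, length_pairBits, List.length_ofFn]
  omega

theorem accW_agree (M : Alg) (m : ℕ) (x : List Bool) : ∃ b : ℕ, ∀ (A A' : Oracle),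
    (∀ y : List Bool, y.length < b → A' y = A y) → numW M A' m x = numW M A m x := by
  classical
  obtain ⟨qb, h⟩ := out_agree M
  refine ⟨qb.eval (4 * m + 2 + x.length) + 1, fun A A' hA => ?_⟩
  unfold numW
  congr 1
  apply Finset.filter_congr
  intro w _
  have key : ∀ y : List Bool, y.length ≤ m →
      M.out A' (pairBits (List.ofFn w) (pairBits y x)) =
        M.out A (pairBits (List.ofFn w) (pairBits y x)) := by
    intro y hy
    apply h
    intro u hu
    apply hA
    have h1 := eval_mono qb (len_am m x y w hy)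
    omega
  unfold AccW
  constructor
  · rintro ⟨y, hy, h1⟩
    exact ⟨y, hy, by rw [← key y hy]; exact h1⟩
  · rintro ⟨y, hy, h1⟩
    exact ⟨y, hy, by rw [key y hy]; exact h1⟩

theorem accW_local (M : Alg) (A : Oracle) (m : ℕ) (x : List Bool) (w : Fin m → Bool)
    (h : AccW M A m x w) : ∃ U : Finset (List Bool), U.card ≤ M.p.eval (4 * m + 2 + x.length) ∧
      ∀ A' : Oracle, (∀ u ∈ U, A' u = A u) → AccW M A' m x w := by
  obtain ⟨y, hy, h1⟩ := h
  obtain ⟨qb, hqb⟩ := M.out_local
  obtain ⟨U, hU1, _, hU3⟩ := hqb A (pairBits (List.ofFn w) (pairBits y x))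
  refine ⟨U, hU1.trans (eval_mono _ (len_am m x y w hy)), fun A' hA' => ⟨y, hy, ?_⟩⟩
  rw [hU3 A' hA', h1]

/-- the algorithm does not accept the complement of the language -/
def Rq3 (M : Alg) (p : Polynomial ℕ) (A : Oracle) : Prop :=
  ¬ ∀ x, (x ∈ (labLang A)ᶜ → 2 / 3 ≤ (numW M A (p.eval x.length) x : ℝ) / 2 ^ p.eval x.length) ∧
    (x ∉ (labLang A)ᶜ → (numW M A (p.eval x.length) x : ℝ) / 2 ^ p.eval x.length ≤ 1 / 3)

open Classical in
theorem forced3 (M : Alg) (p : Polynomial ℕ) : ∃ t, Forced (Rq3 M p) t := by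
  obtain ⟨e, n₁, he⟩ := exists_exp_le (Polynomial.C 3 * (M.p.comp (Polynomial.C 4 * p +
    Polynomial.C 2 + Polynomial.X)).comp
    (Polynomial.C 2 * Polynomial.X ^ 3 + Polynomial.C 1 + Polynomial.X) + 1)
  obtain ⟨n₂, hn₂⟩ := choose_big (e + 3)
  obtain ⟨n₃, hn₃⟩ := pow_ev (e + 3)
  refine ⟨e + 4, fun n₀ A => ?_⟩
  obtain ⟨n, hn⟩ : ∃ n, n = n₀ + n₁ + n₂ + n₃ + 2 := ⟨_, rfl⟩
  have b1 := he n (by omega)
  have b2 := hn₂ n (by omega)
  have b3 := hn₃ n (by omega)
  have b4 : 1 ≤ n ^ e := Nat.one_le_iff_ne_zero.2 (pow_ne_zero _ (by omega))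
  have b5 : n ≤ n ^ 3 := Nat.le_self_pow (by norm_num) n
  have hG : Good (lab A n) (n ^ 3) (n ^ e) (e + 4) := by
    apply exists_good _ b4 (by omega) (by omega)
    · rw [← pow_add, add_comm 3 e]
      exact b2
    · have h1 : n ^ 3 * n ^ e ≤ 2 ^ n := by
        rw [← pow_add, add_comm 3 e]
        exact b3
      calc (n ^ 3 * n ^ e) ^ n * 2 ^ n ≤ (2 ^ n) ^ n * 2 ^ n :=
            Nat.mul_le_mul_right _ (Nat.pow_le_pow_left h1 n)
        _ = 2 ^ (n * n + n) := by rw [← pow_mul, ← pow_add]
        _ ≤ 2 ^ n ^ 3 := by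
            apply Nat.pow_le_pow_right (by norm_num)
            have h2 : 2 ≤ n := by omega
            have h3 : n * n + n ≤ n * n * 2 := by nlinarith
            calc n * n + n ≤ n * n * 2 := h3
              _ ≤ n * n * n := Nat.mul_le_mul_left _ h2
              _ = n ^ 3 := by ring
  obtain ⟨k, u, a, hk, hu, ha, J, hJ, hJ2⟩ := hG
  set x := inpt k u a with hx
  set m := p.eval x.length with hm
  obtain ⟨c1, hc1⟩ := accW_agree M m x
  obtain ⟨c2, hc2⟩ := labLang_agree x
  have hxA : x ∉ labLang A := by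
    rw [hx, inpt_mem hk hu]
    rintro ⟨j, _, h1, h2⟩
    exact ha j h1 h2
  have hpos : (0 : ℝ) < 2 ^ m := by positivity
  by_cases hacc : 2 / 3 ≤ (numW M A m x : ℝ) / 2 ^ m
  · -- change one block
    set W : Finset (Fin m → Bool) := univ.filter (fun w => AccW M A m x w) with hW
    have hWc : (numW M A m x : ℝ) = (W.card : ℝ) := by
      unfold numW
      rw [hW]
    have hloc : ∀ w : Fin m → Bool, ∃ U : Finset (List Bool), w ∈ W →
        (U.card ≤ M.p.eval (4 * m + 2 + x.length) ∧
        ∀ A' : Oracle, (∀ u ∈ U, A' u = A u) → AccW M A' m x w) := by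
      intro w
      by_cases hw : w ∈ W
      · obtain ⟨U, h1, h2⟩ := accW_local M A m x w (mem_filter.1 hw).2
        exact ⟨U, fun _ => ⟨h1, h2⟩⟩
      · exact ⟨∅, fun h => absurd h hw⟩
    choose U hU using hloc
    have hPs : 3 * M.p.eval (4 * m + 2 + x.length) < n ^ e := by
      have h1 := eval_mono (M.p.comp (Polynomial.C 4 * p + Polynomial.C 2 + Polynomial.X))
        (inpt_length k u a)
      rw [← hx] at h1
      simp only [Polynomial.eval_add, Polynomial.eval_comp, Polynomial.eval_mul,
        Polynomial.eval_C, Polynomial.eval_X] at h1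
      rw [← hm] at h1
      refine lt_of_lt_of_le ?_ b1
      simp only [Polynomial.eval_add, Polynomial.eval_comp, Polynomial.eval_mul,
        Polynomial.eval_pow, Polynomial.eval_C, Polynomial.eval_X, Polynomial.eval_one]
      omega
    -- the strings to be changed
    set Bc : ℕ → Finset (List Bool) := fun j =>
      ((univ : Finset (Fin n)).filter (fun i => lab A n j i ≠ a i)).image
        (fun i : Fin n => bl n j i) with hBc
    have hJlt : ∀ j ∈ J, j < 2 ^ n ^ 3 := fun j hj => lt_of_div hk hu (hJ2 j hj).1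
    -- the touched blocks
    have htouch : ∀ w ∈ W, (J.filter (fun j => ¬ Disjoint (Bc j) (U w))).card ≤
        M.p.eval (4 * m + 2 + x.length) := by
      intro w hw
      refine le_trans ?_ (hU w hw).1
      have h1 : ∀ j ∈ J.filter (fun j => ¬ Disjoint (Bc j) (U w)), ∃ y, y ∈ Bc j ∧ y ∈ U w :=
        fun j hj => by
          have := (mem_filter.1 hj).2
          rw [Finset.not_disjoint_iff] at this
          exact this
      choose! y hy1 hy2 using h1
      apply Finset.card_le_card_of_injOn y hy2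
      intro j hj j' hj' hjj
      have h3 := hy1 j hj
      have h4 := hy1 j' hj'
      have hjJ : j ∈ J := (mem_filter.1 hj).1
      have hjJ' : j' ∈ J := (mem_filter.1 hj').1
      rw [hBc, mem_image] at h3 h4
      obtain ⟨i, _, h5⟩ := h3
      obtain ⟨i', _, h6⟩ := h4
      exact (bl_inj (hJlt j hjJ) (hJlt j' hjJ') (h5.trans (hjj.trans h6.symm))).1
    have hex : ∃ j ∈ J, 3 * (W.filter (fun w => ¬ Disjoint (Bc j) (U w))).card ≤ W.card := by
      by_contra hno
      push Not at hno
      have h1 : ∑ j ∈ J, (W.filter (fun w => ¬ Disjoint (Bc j) (U w))).card =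
          ∑ w ∈ W, (J.filter (fun j => ¬ Disjoint (Bc j) (U w))).card :=
        Finset.sum_card_bipartiteAbove_eq_sum_card_bipartiteBelow _
      have h2 : ∑ w ∈ W, (J.filter (fun j => ¬ Disjoint (Bc j) (U w))).card ≤
          W.card * M.p.eval (4 * m + 2 + x.length) := by
        rw [← smul_eq_mul]
        exact Finset.sum_le_card_nsmul _ _ _ htouch
      have h3 : J.card * (W.card + 1) ≤
          3 * ∑ j ∈ J, (W.filter (fun w => ¬ Disjoint (Bc j) (U w))).card := by
        rw [Finset.mul_sum, ← smul_eq_mul]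
        exact Finset.card_nsmul_le_sum _ _ _ fun j hj => hno j hj
      rw [h1] at h3
      have h4 : n ^ e * (W.card + 1) ≤ J.card * (W.card + 1) := Nat.mul_le_mul_right _ hJ
      have h5 : 3 * (W.card * M.p.eval (4 * m + 2 + x.length)) ≤ W.card * n ^ e := by
        calc 3 * (W.card * M.p.eval (4 * m + 2 + x.length)) =
            W.card * (3 * M.p.eval (4 * m + 2 + x.length)) := by ring
          _ ≤ W.card * n ^ e := Nat.mul_le_mul_left _ hPs.le
      nlinarith
    obtain ⟨j, hj, hdis⟩ := hex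
    refine ⟨fun y => if y ∈ Bc j then !A y else A y, max c1 c2, fun y hy => ?_,
      ⟨Bc j, ?_, fun y hy => if_neg hy⟩, fun A'' hA'' hall => ?_⟩
    · apply if_neg
      intro hin
      rw [hBc, mem_image] at hin
      obtain ⟨i, _, rfl⟩ := hin
      unfold bl at hy
      rw [List.length_append, length_bitsOf', List.length_replicate] at hy
      omega
    · refine Finset.card_image_le.trans ?_
      exact (hJ2 j hj).2
    · set A' : Oracle := fun y => if y ∈ Bc j then !A y else A y with hA'
      have h1 := hc1 A' A'' fun y hy => hA'' y (lt_of_lt_of_le hy (le_max_left _ _))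
      have h2 := hc2 A' A'' fun y hy => hA'' y (lt_of_lt_of_le hy (le_max_right _ _))
      have h3 : (W.card : ℝ) ≤ 3 / 2 * (numW M A' m x : ℝ) := by
        have h4 : W.card ≤ (W.filter (fun w => ¬ Disjoint (Bc j) (U w))).card +
            numW M A' m x := by
          have h5 : W ⊆ W.filter (fun w => ¬ Disjoint (Bc j) (U w)) ∪
              univ.filter (fun w : Fin m → Bool => AccW M A' m x w) := by
            intro w hw
            rw [mem_union]
            by_cases h6 : Disjoint (Bc j) (U w)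
            · refine Or.inr (mem_filter.2 ⟨mem_univ _, (hU w hw).2 A' fun y hy => ?_⟩)
              rw [hA']
              exact if_neg fun h => (Finset.disjoint_left.1 h6 h) hy
            · exact Or.inl (mem_filter.2 ⟨hw, h6⟩)
          exact (card_le_card h5).trans (card_union_le _ _)
        have h7 : 2 * W.card ≤ 3 * numW M A' m x := by omega
        have h8 : (2 : ℝ) * (W.card : ℝ) ≤ 3 * (numW M A' m x : ℝ) := by exact_mod_cast h7
        linarith
      have h4 : x ∈ labLang A' := by
        rw [hx, inpt_mem hk hu]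
        refine ⟨j, hJlt j hj, (hJ2 j hj).1, ?_⟩
        funext i
        change A' (bl n j i) = a i
        rw [hA']
        by_cases h5 : lab A n j i = a i
        · have h6 : bl n j i ∉ Bc j := by
            intro hin
            rw [hBc, mem_image] at hin
            obtain ⟨i', hi', h7⟩ := hin
            have h8 := (bl_inj (hJlt j hj) (hJlt j hj) h7).2
            have h9 : i' = i := Fin.ext h8
            rw [h9, mem_filter] at hi'
            exact hi'.2 h5
          simp only [if_neg h6]
          exact h5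
        · have h6 : bl n j i ∈ Bc j := by
            rw [hBc, mem_image]
            exact ⟨i, mem_filter.2 ⟨mem_univ _, h5⟩, rfl⟩
          simp only [if_pos h6]
          have h7 : A (bl n j i) ≠ a i := h5
          cases h8 : A (bl n j i) <;> cases h9 : a i <;> simp_all
      have h5 := (hall x).2 (by rw [Set.mem_compl_iff, h2, not_not]; exact h4)
      rw [← hm, h1, div_le_iff₀ hpos] at h5
      rw [hWc, le_div_iff₀ hpos] at hacc
      nlinarith
  · refine ⟨A, max c1 c2, fun _ _ => rfl, ⟨∅, by simp, fun _ _ => rfl⟩, fun A'' hA'' hall => ?_⟩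
    have h1 := hc1 A A'' fun y hy => hA'' y (lt_of_lt_of_le hy (le_max_left _ _))
    have h2 := hc2 A A'' fun y hy => hA'' y (lt_of_lt_of_le hy (le_max_right _ _))
    have h5 := (hall x).1 (by rw [Set.mem_compl_iff, h2]; exact hxA)
    rw [← hm, h1] at h5
    exact hacc h5

/-- **Few changes suffice for `coNP` not in `AM`.** -/
theorem exists_coNP_AM {g : ℕ → ℝ} (hg : Tendsto g atTop atTop) (O : Oracle) :
    ∃ A, Close g O A ∧ ∃ L, IsNP A L ∧ ¬ IsAM A Lᶜ := by
  obtain ⟨np, hnp⟩ := exists_np
  obtain ⟨A, hA, hR⟩ := exists_few (Rq := fun i => Rq3 (np i).1 (np i).2)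
    (fun i => forced3 _ _) hg O
  refine ⟨A, hA, labLang A, labLang_np A, ?_⟩
  rintro ⟨V, p, ⟨M, hM⟩, hV⟩
  obtain ⟨j, hj⟩ := hnp (M, p)
  have h1 := hR j
  simp only [hj] at h1
  apply h1
  intro x
  rw [← amPr_eq hM]
  exact hV x

theorem mainAM (g : ℕ → ℝ) :
    (Tendsto g atTop atTop → ∀ O : Oracle, ∃ A, Close g O A ∧ ∃ L, IsNP A L ∧ ¬ IsAM A Lᶜ) ∧
    (¬ Tendsto g atTop atTop → ∀ O A : Oracle, Close g O A →
      {y : List Bool | A y ≠ O y}.Finite) ∧
    ((¬ ∀ ε : ℝ, 0 < ε → ∃ᶠ n : ℕ in atTop, g n ≤ 2 ^ (n : ℝ) ^ ε) → ∀ O : Oracle,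
      ∃ A, Close g O A ∧ ∀ L, IsNP A L → IsP A Lᶜ) ∧
    ((∀ ε : ℝ, 0 < ε → ∃ᶠ n : ℕ in atTop, g n ≤ 2 ^ (n : ℝ) ^ ε) → ∀ᵐ O ∂randomOracle,
      ∀ A, Close g O A → ∃ L, IsNP A L ∧ ¬ WithAdvice (IsNP A) Lᶜ) := by
  refine ⟨fun hg O => exists_coNP_AM hg O, fun hg O A h => finite_of_close hg h,
    fun hg O => ?_, fun hg => ?_⟩
  · obtain ⟨A, hA, h1⟩ := (mainFew g).1 True True False (Or.inl trivial) (fun h => h.2.2) hg O
    exact ⟨A, hA, fun L hL => (((h1.1.2 trivial) L).2 hL).compl⟩
  · filter_upwards [(mainFew g).2.1 hg] with O hO A hA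
    have h1 := (hO A hA).1
    push Not at h1
    exact h1

end Pool.Agent.TH678.PC
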